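import Pool.Agent.H624.LD.Stm
import Pool.Graph.R_pool_sql_team_seeded_9f66d723.W6h79.LD.T8a
import Pool.Graph.R_pool_sql_team_seeded_9f66d723.W6h79.LD.T8d
import Pool.Graph.R_pool_sql_team_seeded_9f66d723.W6h79.LD.W1

/-!
# (ZDL) the dual of `C(X)` for a compact space whose sigma-algebra is generated by an algebra of
clopen sets that separates points

Generalisation of the library pieces T8a, T8b, T8e, W1 from `A → Bool` to `X`.
-/

set_option autoImplicit false
set_option linter.unusedSectionVars false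

open MeasureTheory Set Filter
open scoped ENNReal NNReal Topology
open Pool.Agent.W6h79.LD Pool.Agent.H624.LD

noncomputable section

namespace Pool.Agent.H860.LD

universe u

variable {X : Type u} [TopologicalSpace X] [CompactSpace X] [MeasurableSpace X]

/-- The sigma-algebra is generated by an algebra of clopen sets that separates points. -/
structure ZD (𝒜 : Set (Set X)) : Prop where
  alg : IsSetAlgebra 𝒜
  clo : ∀ s ∈ 𝒜, IsClopen s
  sep : ∀ x y : X, x ≠ y → ∃ s ∈ 𝒜, x ∈ s ∧ y ∉ s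
  gen : ‹MeasurableSpace X› = MeasurableSpace.generateFrom 𝒜

theorem ZD.meas {𝒜 : Set (Set X)} (h𝒜 : ZD 𝒜) {s : Set X} (hs : s ∈ 𝒜) : MeasurableSet s := by
  rw [h𝒜.gen]
  exact MeasurableSpace.measurableSet_generateFrom hs

theorem ZD.le_borel {𝒜 : Set (Set X)} (h𝒜 : ZD 𝒜) : ‹MeasurableSpace X› ≤ borel X := by
  rw [h𝒜.gen]
  refine MeasurableSpace.generateFrom_le fun s hs => ?_
  exact MeasurableSpace.measurableSet_generateFrom (h𝒜.clo s hs).isOpen

theorem meas_cont {𝒜 : Set (Set X)} (h𝒜 : ZD 𝒜) (g : C(X, ℝ)) : Measurable (g : X → ℝ) := by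
  classical
  let S : Subalgebra ℝ C(X, ℝ) :=
    { carrier := {g | Measurable (g : X → ℝ)}
      mul_mem' := fun {a b} ha hb => by
        have ha' : Measurable (a : X → ℝ) := ha
        have hb' : Measurable (b : X → ℝ) := hb
        exact ha'.mul hb'
      add_mem' := fun {a b} ha hb => by
        have ha' : Measurable (a : X → ℝ) := ha
        have hb' : Measurable (b : X → ℝ) := hb
        exact ha'.add hb'
      algebraMap_mem' := fun r => (measurable_const : Measurable fun _ : X => r) }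
  have hS : S.SeparatesPoints := by
    intro x y hxy
    obtain ⟨s, hs, hx, hy⟩ := h𝒜.sep x y hxy
    let c : C(X, ℝ) := ⟨s.indicator fun _ => (1 : ℝ),
      (h𝒜.clo s hs).continuous_indicator continuous_const⟩
    have hc : Measurable (c : X → ℝ) := measurable_const.indicator (h𝒜.meas hs)
    refine ⟨c, ⟨c, hc, rfl⟩, ?_⟩
    change s.indicator (fun _ => (1 : ℝ)) x ≠ s.indicator (fun _ => (1 : ℝ)) y
    rw [indicator_of_mem hx, indicator_of_notMem hy]
    exact one_ne_zero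
  have htop := ContinuousMap.subalgebra_topologicalClosure_eq_top_of_separatesPoints S hS
  have hg : g ∈ S.topologicalClosure := by rw [htop]; trivial
  have hg' : g ∈ closure (S : Set C(X, ℝ)) := hg
  obtain ⟨u, hu, hlim⟩ := mem_closure_iff_seq_limit.1 hg'
  refine measurable_of_tendsto_metrizable (f := fun n x => u n x) (fun n => hu n) ?_
  rw [tendsto_pi_nhds]
  intro x
  exact ((ContinuousEvalConst.continuous_eval_const x).tendsto g).comp hlim

theorem int_cont {𝒜 : Set (Set X)} (h𝒜 : ZD 𝒜) (m : Measure X) [IsFiniteMeasure m] (g : C(X, ℝ)) :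
    Integrable (g : X → ℝ) m :=
  Integrable.of_bound (meas_cont h𝒜 g).aestronglyMeasurable ‖g‖
    (Eventually.of_forall fun x => g.norm_coe_le_norm x)

theorem approx_ind {𝒜 : Set (Set X)} (h𝒜 : ZD 𝒜) (m : Measure X) [IsFiniteMeasure m] (c : ℝ)
    (s : Set X) (hs : MeasurableSet s) (ε : ℝ) (hε : 0 < ε) :
    ∃ h : C(X, ℝ), ∫ x, |s.indicator (fun _ => c) x - h x| ∂m ≤ ε := by
  have hd := Measure.MeasureDense.of_generateFrom_isSetAlgebra_finite (μ := m) h𝒜.alg h𝒜.gen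
  obtain ⟨t, ht, hst⟩ := hd.approx s hs (measure_ne_top m s) (ε / (|c| + 1)) (by positivity)
  have htm : MeasurableSet t := hd.measurable t ht
  let h : C(X, ℝ) := ⟨t.indicator fun _ => c, (h𝒜.clo t ht).continuous_indicator continuous_const⟩
  have hh : ∀ x, h x = t.indicator (fun _ => c) x := fun x => rfl
  refine ⟨h, ?_⟩
  have e : ∀ x, |s.indicator (fun _ => c) x - h x| =
      (symmDiff s t).indicator (fun _ => |c|) x := by
    intro x
    rw [hh]
    by_cases h1 : x ∈ s <;> by_cases h2 : x ∈ t <;>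
      simp [Set.indicator, h1, h2, Set.mem_symmDiff]
  simp_rw [e]
  rw [integral_indicator (hs.symmDiff htm), setIntegral_const, smul_eq_mul]
  have h3 : m.real (symmDiff s t) ≤ ε / (|c| + 1) := by
    rw [Measure.real]
    exact ENNReal.toReal_le_of_le_ofReal (by positivity) hst.le
  calc m.real (symmDiff s t) * |c| ≤ ε / (|c| + 1) * |c| :=
        mul_le_mul_of_nonneg_right h3 (abs_nonneg c)
    _ ≤ ε := by
        rw [div_mul_eq_mul_div, div_le_iff₀ (by positivity)]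
        nlinarith [abs_nonneg c]

theorem approx {𝒜 : Set (Set X)} (h𝒜 : ZD 𝒜) (m : Measure X) [IsFiniteMeasure m] ⦃f : X → ℝ⦄
    (hf : Integrable f m) :
    ∀ ε : ℝ, 0 < ε → ∃ h : C(X, ℝ), ∫ x, |f x - h x| ∂m ≤ ε := by
  refine Integrable.induction (μ := m)
    (fun f => ∀ ε : ℝ, 0 < ε → ∃ h : C(X, ℝ), ∫ x, |f x - h x| ∂m ≤ ε)
    ?_ ?_ ?_ ?_ hf
  · intro c s hs _ ε hε
    exact approx_ind h𝒜 m c s hs ε hε
  · intro f g _ hf hg h1 h2 ε hε
    obtain ⟨a, ha⟩ := h1 (ε / 2) (by positivity)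
    obtain ⟨b, hb⟩ := h2 (ε / 2) (by positivity)
    refine ⟨a + b, ?_⟩
    have i1 : Integrable (fun x => |f x - a x|) m := (hf.sub (int_cont h𝒜 m a)).abs
    have i2 : Integrable (fun x => |g x - b x|) m := (hg.sub (int_cont h𝒜 m b)).abs
    have hle : ∫ x, |(f + g) x - (a + b) x| ∂m ≤ ∫ x, (|f x - a x| + |g x - b x|) ∂m := by
      refine integral_mono ((hf.add hg).sub (int_cont h𝒜 m (a + b))).abs (i1.add i2) fun x => ?_
      show |f x + g x - (a x + b x)| ≤ |f x - a x| + |g x - b x|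
      have := abs_add_le (f x - a x) (g x - b x)
      rw [show f x + g x - (a x + b x) = f x - a x + (g x - b x) by ring]
      exact this
    rw [integral_add i1 i2] at hle
    linarith
  · refine isClosed_of_closure_subset fun f hf ε hε => ?_
    obtain ⟨f', hf', hd⟩ := Metric.mem_closure_iff.1 hf (ε / 2) (by positivity)
    obtain ⟨a, ha⟩ := hf' (ε / 2) (by positivity)
    refine ⟨a, ?_⟩
    rw [dist_eq_norm, L1.norm_eq_integral_norm] at hd
    have e : ∫ x, ‖(f - f') x‖ ∂m = ∫ x, |f x - f' x| ∂m := by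
      refine integral_congr_ae ?_
      filter_upwards [Lp.coeFn_sub f f'] with x hx
      rw [hx, Real.norm_eq_abs]; rfl
    rw [e] at hd
    have i0 : Integrable (fun x => |f x - f' x|) m :=
      ((L1.integrable_coeFn f).sub (L1.integrable_coeFn f')).abs
    have i1 : Integrable (fun x => |f' x - a x|) m :=
      ((L1.integrable_coeFn f').sub (int_cont h𝒜 m a)).abs
    have hle : ∫ x, |f x - a x| ∂m ≤ ∫ x, (|f x - f' x| + |f' x - a x|) ∂m := by
      refine integral_mono ((L1.integrable_coeFn f).sub (int_cont h𝒜 m a)).abs (i0.add i1)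
        fun x => ?_
      exact abs_sub_le (f x) (f' x) (a x)
    rw [integral_add i0 i1] at hle
    linarith
  · intro f g hfg _ h1 ε hε
    obtain ⟨a, ha⟩ := h1 ε hε
    refine ⟨a, le_trans (le_of_eq ?_) ha⟩
    refine integral_congr_ae ?_
    filter_upwards [hfg] with x hx
    rw [hx]

/-- The norm of a density. -/
theorem norming {𝒜 : Set (Set X)} (h𝒜 : ZD 𝒜) (m : Measure X) (hm : IsFiniteMeasure m)
    (f : X → ℝ) (hf : Integrable f m) (ε : ℝ) (hε : 0 < ε) :
    ∃ g : C(X, ℝ), ‖g‖ ≤ 1 ∧ ∫ x, |f x| ∂m - ε ≤ ∫ x, g x * f x ∂m := by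
  obtain ⟨h, hh⟩ := approx h𝒜 m hf (ε / 3) (by positivity)
  have hhi := int_cont h𝒜 m h
  set c : ℝ := m.real univ with hc
  have hc0 : 0 ≤ c := measureReal_nonneg
  set δ : ℝ := ε / (3 * (c + 1)) with hδ
  have hδ0 : 0 < δ := by positivity
  have hδc : δ * c ≤ ε / 3 := by
    rw [hδ, div_mul_eq_mul_div, div_le_div_iff₀ (by positivity) (by positivity)]
    nlinarith
  let g : C(X, ℝ) := ⟨fun x => h x / (|h x| + δ), by
    refine h.continuous.div (h.continuous.abs.add continuous_const) fun x => ?_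
    have := abs_nonneg (h x)
    positivity⟩
  have hgx : ∀ x, g x = h x / (|h x| + δ) := fun x => rfl
  have hg1 : ∀ x, |g x| ≤ 1 := by
    intro x
    have h1 := abs_nonneg (h x)
    have h2 : 0 < |h x| + δ := by positivity
    rw [hgx, abs_div, abs_of_pos h2, div_le_one h2]
    linarith
  refine ⟨g, (ContinuousMap.norm_le g zero_le_one).2 fun x => hg1 x, ?_⟩
  have hgm : Integrable (fun x => g x * f x) m := by
    refine hf.bdd_mul (c := 1) (meas_cont h𝒜 g).aestronglyMeasurable ?_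
    exact Eventually.of_forall fun x => hg1 x
  have hint : Integrable (fun x => |f x| - 2 * |f x - h x| - δ) m :=
    ((hf.abs).sub ((hf.sub hhi).abs.const_mul 2)).sub (integrable_const δ)
  have hle : ∫ x, (|f x| - 2 * |f x - h x| - δ) ∂m ≤ ∫ x, g x * f x ∂m := by
    refine integral_mono hint hgm fun x => ?_
    have h1 := abs_nonneg (h x)
    have h2 : 0 < |h x| + δ := by positivity
    -- `g h ≥ |h| - δ`
    have h3 : |h x| - δ ≤ g x * h x := by
      rw [hgx, div_mul_eq_mul_div, le_div_iff₀ h2]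
      have h4 : h x * h x = |h x| * |h x| := (abs_mul_abs_self _).symm
      rw [h4]
      nlinarith
    have h5 : -|f x - h x| ≤ g x * (f x - h x) := by
      have h6 : |g x * (f x - h x)| ≤ |f x - h x| := by
        rw [abs_mul]
        calc |g x| * |f x - h x| ≤ 1 * |f x - h x| :=
              mul_le_mul_of_nonneg_right (hg1 x) (abs_nonneg _)
          _ = |f x - h x| := one_mul _
      linarith [neg_abs_le (g x * (f x - h x))]
    have h7 : |f x| ≤ |h x| + |f x - h x| := by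
      have := abs_add_le (h x) (f x - h x)
      rw [add_sub_cancel] at this
      exact this
    have h8 : g x * f x = g x * h x + g x * (f x - h x) := by ring
    change |f x| - 2 * |f x - h x| - δ ≤ g x * f x
    rw [h8]
    linarith
  refine le_trans ?_ hle
  rw [integral_sub, integral_sub, integral_const_mul, integral_const, smul_eq_mul]
  · have h9 : ∫ x, |f x - h x| ∂m ≤ ε / 3 := hh
    have h10 : m.real univ * δ ≤ ε / 3 := by rw [mul_comm]; exact hδc
    linarith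
  · exact hf.abs
  · exact (hf.sub hhi).abs.const_mul 2
  · exact (hf.abs).sub ((hf.sub hhi).abs.const_mul 2)
  · exact integrable_const δ

/-- The `ℓ¹`-sum. -/
abbrev XX (𝓕 : Set (Measure X)) : Type u := lp (fun ν : 𝓕 => Lp ℝ 1 (ν : Measure X)) 1

theorem norm_summable {𝓕 : Set (Measure X)} (F : XX 𝓕) : Summable (fun ν => ‖F ν‖) := by
  have h := (lp.memℓp F).summable (by norm_num)
  simpa using h

theorem norm_eq {𝓕 : Set (Measure X)} (F : XX 𝓕) : ‖F‖ = ∑' ν, ‖F ν‖ := by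
  rw [lp.norm_eq_tsum_rpow (by norm_num)]
  simp

theorem int_mul (hc : ∀ g : C(X, ℝ), Measurable (g : X → ℝ)) {ν : Measure X} (g : C(X, ℝ)) (f : Lp ℝ 1 ν) :
    Integrable (fun x => g x * f x) ν := by
  have hf : Integrable (fun x => f x) ν := L1.integrable_coeFn f
  refine hf.bdd_mul (c := ‖g‖) (hc g).aestronglyMeasurable ?_
  exact ae_of_all _ fun x => g.norm_coe_le_norm x

theorem int_bound (hc : ∀ g : C(X, ℝ), Measurable (g : X → ℝ)) {ν : Measure X} (g : C(X, ℝ)) (f : Lp ℝ 1 ν) :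
    |∫ x, g x * f x ∂ν| ≤ ‖f‖ * ‖g‖ := by
  rw [L1.norm_eq_integral_norm, ← integral_mul_const]
  have h0 := norm_integral_le_integral_norm (μ := ν) (fun x => g x * f x)
  rw [Real.norm_eq_abs] at h0
  refine h0.trans ?_
  refine integral_mono (int_mul hc g f).norm ((L1.integrable_coeFn f).norm.mul_const _) fun x => ?_
  simp only [norm_mul]
  rw [mul_comm]
  exact mul_le_mul_of_nonneg_left (g.norm_coe_le_norm x) (norm_nonneg _)

theorem summable_T (hc : ∀ g : C(X, ℝ), Measurable (g : X → ℝ))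
    {𝓕 : Set (Measure X)} (F : XX 𝓕) (g : C(X, ℝ)) :
    Summable (fun ν : 𝓕 => ∫ x, g x * F ν x ∂(ν : Measure X)) := by
  refine Summable.of_norm_bounded ((norm_summable F).mul_right ‖g‖) fun ν => ?_
  exact int_bound hc g (F ν)

/-- The bilinear map. -/
def B (hc : ∀ g : C(X, ℝ), Measurable (g : X → ℝ))
    (𝓕 : Set (Measure X)) : XX 𝓕 →ₗ[ℝ] C(X, ℝ) →ₗ[ℝ] ℝ :=
  LinearMap.mk₂ ℝ (fun F g => ∑' ν : 𝓕, ∫ x, g x * F ν x ∂(ν : Measure X))
    (by
      intro F G g
      rw [← (summable_T hc F g).tsum_add (summable_T hc G g)]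
      congr 1
      ext ν
      rw [← integral_add (int_mul hc g (F ν)) (int_mul hc g (G ν))]
      refine integral_congr_ae ?_
      filter_upwards [Lp.coeFn_add (F ν) (G ν)] with x hx
      have : (F + G) ν = F ν + G ν := rfl
      rw [this, hx]
      simp only [Pi.add_apply]
      ring)
    (by
      intro c F g
      rw [smul_eq_mul, ← tsum_mul_left]
      congr 1
      ext ν
      rw [← integral_const_mul]
      refine integral_congr_ae ?_
      filter_upwards [Lp.coeFn_smul c (F ν)] with x hx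
      have : (c • F) ν = c • F ν := rfl
      rw [this, hx]
      simp only [Pi.smul_apply, smul_eq_mul]
      ring)
    (by
      intro F g h
      rw [← (summable_T hc F g).tsum_add (summable_T hc F h)]
      congr 1
      ext ν
      rw [← integral_add (int_mul hc g (F ν)) (int_mul hc h (F ν))]
      refine integral_congr_ae (ae_of_all _ fun x => ?_)
      simp only [ContinuousMap.add_apply]
      ring)
    (by
      intro c F g
      rw [smul_eq_mul, ← tsum_mul_left]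
      congr 1
      ext ν
      rw [← integral_const_mul]
      refine integral_congr_ae (ae_of_all _ fun x => ?_)
      simp only [ContinuousMap.smul_apply, smul_eq_mul]
      ring)

theorem B_apply (hc : ∀ g : C(X, ℝ), Measurable (g : X → ℝ))
    {𝓕 : Set (Measure X)} (F : XX 𝓕) (g : C(X, ℝ)) :
    B hc 𝓕 F g = ∑' ν : 𝓕, ∫ x, g x * F ν x ∂(ν : Measure X) := rfl

theorem B_bound (hc : ∀ g : C(X, ℝ), Measurable (g : X → ℝ))
    {𝓕 : Set (Measure X)} (F : XX 𝓕) (g : C(X, ℝ)) :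
    ‖B hc 𝓕 F g‖ ≤ 1 * ‖F‖ * ‖g‖ := by
  rw [B_apply hc, one_mul, norm_eq, ← tsum_mul_right]
  exact tsum_of_norm_bounded ((norm_summable F).mul_right ‖g‖).hasSum fun ν => int_bound hc g (F ν)

/-- Separation of finitely many pairwise singular measures. -/
theorem sep {𝓕 : Set (Measure X)} (h𝓕 : ∀ ν ∈ 𝓕, ∀ ν' ∈ 𝓕, ν ≠ ν' → ν ⟂ₘ ν') (J : Finset 𝓕) :
    ∃ S : 𝓕 → Set X, (∀ ν, MeasurableSet (S ν)) ∧ (∀ ν ∈ J, (ν : Measure X) (S ν)ᶜ = 0) ∧
      ∀ ν ∈ J, ∀ ν' ∈ J, ν ≠ ν' → (ν' : Measure X) (S ν) = 0 := by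
  classical
  have h : ∀ ν : 𝓕, ∃ S : Set X, MeasurableSet S ∧ (ν : Measure X) Sᶜ = 0 ∧
      ∀ ν' ∈ J, ν ≠ ν' → (ν' : Measure X) S = 0 := by
    intro ν
    have h1 : (ν : Measure X) ⟂ₘ Measure.sum (fun ν' : {ν' // ν' ∈ J ∧ ν ≠ ν'} =>
        ((ν' : 𝓕) : Measure X)) := by
      have : Finite {ν' // ν' ∈ J ∧ ν ≠ ν'} :=
        (J.finite_toSet.subset (fun x hx => hx.1) : Set.Finite {ν' | ν' ∈ J ∧ ν ≠ ν'})
      rw [Measure.MutuallySingular.sum_right]
      intro ν'
      exact h𝓕 _ ν.2 _ ν'.1.2 fun h => ν'.2.2 (Subtype.ext h)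
    obtain ⟨s, hs, h2, h3⟩ := h1
    refine ⟨sᶜ, hs.compl, by simpa using h2, fun ν' hν' hne => ?_⟩
    rw [Measure.sum_apply _ hs.compl] at h3
    rw [ENNReal.tsum_eq_zero] at h3
    exact h3 ⟨ν', hν', hne⟩
  choose S h1 h2 h3 using h
  exact ⟨S, h1, fun ν _ => h2 ν, fun ν _ ν' hν' hne => h3 ν ν' hν' hne⟩

/-- Lower bound on finite partial sums. -/
theorem lower_fin (hc : ∀ g : C(X, ℝ), Measurable (g : X → ℝ))
    (h2 : ∀ (m : Measure X), IsFiniteMeasure m → ∀ f : X → ℝ, Integrable f m →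
    ∀ ε : ℝ, 0 < ε →
      ∃ g : C(X, ℝ), ‖g‖ ≤ 1 ∧ ∫ x, |f x| ∂m - ε ≤ ∫ x, g x * f x ∂m) {𝓕 : Set (Measure X)} (h𝓕 : MaxFamX 𝓕) (F : XX 𝓕) (J : Finset 𝓕)
    {ε : ℝ} (hε : 0 < ε) : ∃ g : C(X, ℝ), ‖g‖ ≤ 1 ∧
      ∑ ν ∈ J, ‖F ν‖ - ε ≤ ∑ ν ∈ J, ∫ x, g x * F ν x ∂(ν : Measure X) := by
  classical
  obtain ⟨S, hS, hS1, hS2⟩ := sep h𝓕.2.1 J
  set m : Measure X := ∑ ν ∈ J, (ν : Measure X) with hm
  set f : X → ℝ := fun x => ∑ ν ∈ J, (S ν).indicator (fun x => F ν x) x with hf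
  have : ∀ ν : 𝓕, IsProbabilityMeasure (ν : Measure X) := fun ν => h𝓕.1 _ ν.2
  have hmf : IsFiniteMeasure m := by
    rw [hm]
    infer_instance
  have hfae : ∀ ν ∈ J, f =ᵐ[(ν : Measure X)] fun x => F ν x := by
    intro ν hν
    have h3 : ∀ ν' ∈ J, ∀ᵐ x ∂(ν : Measure X), (S ν').indicator (fun x => F ν' x) x =
        if ν' = ν then F ν x else 0 := by
      intro ν' hν'
      by_cases h : ν' = ν
      · subst h
        have : ∀ᵐ x ∂(ν' : Measure X), x ∈ S ν' := by
          rw [ae_iff]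
          exact hS1 ν' hν
        filter_upwards [this] with x hx
        rw [indicator_of_mem hx, if_pos rfl]
      · have : ∀ᵐ x ∂(ν : Measure X), x ∉ S ν' := by
          rw [ae_iff]
          simpa using hS2 ν' hν' ν hν h
        filter_upwards [this] with x hx
        rw [indicator_of_notMem hx, if_neg h]
    have h4 : ∀ᵐ x ∂(ν : Measure X), ∀ ν' ∈ J, (S ν').indicator (fun x => F ν' x) x =
        if ν' = ν then F ν x else 0 := (Finset.eventually_all J).2 h3
    filter_upwards [h4] with x hx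
    rw [hf]
    simp only
    rw [Finset.sum_congr rfl hx, Finset.sum_ite_eq' J ν, if_pos hν]
  have hfi : ∀ ν ∈ J, Integrable f (ν : Measure X) := fun ν hν =>
    (L1.integrable_coeFn (F ν)).congr (hfae ν hν).symm
  have hfm : Integrable f m := by
    rw [hm]
    exact integrable_finsetSum_measure.2 hfi
  obtain ⟨g, hg, h⟩ := h2 m hmf f hfm ε hε
  refine ⟨g, hg, ?_⟩
  have e1 : ∫ x, |f x| ∂m = ∑ ν ∈ J, ‖F ν‖ := by
    rw [hm, integral_finsetSum_measure fun ν hν => (hfi ν hν).abs]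
    refine Finset.sum_congr rfl fun ν hν => ?_
    rw [L1.norm_eq_integral_norm]
    refine integral_congr_ae ?_
    filter_upwards [hfae ν hν] with x hx
    rw [hx, Real.norm_eq_abs]
  have e2 : ∫ x, g x * f x ∂m = ∑ ν ∈ J, ∫ x, g x * F ν x ∂(ν : Measure X) := by
    have : ∀ ν ∈ J, (fun x => g x * f x) =ᵐ[(ν : Measure X)] fun x => g x * F ν x := by
      intro ν hν
      filter_upwards [hfae ν hν] with x hx
      rw [hx]
    rw [hm, integral_finsetSum_measure fun ν hν => (int_mul hc g (F ν)).congr (this ν hν).symm]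
    exact Finset.sum_congr rfl fun ν hν => integral_congr_ae (this ν hν)
  rw [← e1, ← e2]
  exact h

/-- The operator is bounded below. -/
theorem lower (hc : ∀ g : C(X, ℝ), Measurable (g : X → ℝ))
    (h2 : ∀ (m : Measure X), IsFiniteMeasure m → ∀ f : X → ℝ, Integrable f m →
    ∀ ε : ℝ, 0 < ε →
      ∃ g : C(X, ℝ), ‖g‖ ≤ 1 ∧ ∫ x, |f x| ∂m - ε ≤ ∫ x, g x * f x ∂m) {𝓕 : Set (Measure X)} (h𝓕 : MaxFamX 𝓕) (F : XX 𝓕) (ε : ℝ)
    (hε : 0 < ε) : ∃ g : C(X, ℝ), ‖g‖ ≤ 1 ∧ ‖F‖ - ε ≤ B hc 𝓕 F g := by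
  classical
  have hs := norm_summable F
  have h3 : ∃ J : Finset 𝓕, ‖F‖ - ε / 3 ≤ ∑ ν ∈ J, ‖F ν‖ := by
    have := hs.hasSum.eventually (lt_mem_nhds (show (∑' ν, ‖F ν‖) - ε / 3 < ∑' ν, ‖F ν‖ by linarith))
    obtain ⟨J, hJ⟩ := this.exists
    exact ⟨J, by rw [norm_eq]; exact hJ.le⟩
  obtain ⟨J, hJ⟩ := h3
  obtain ⟨g, hg, h⟩ := lower_fin hc h2 h𝓕 F J (ε := ε / 3) (by positivity)
  refine ⟨g, hg, ?_⟩
  have h5 := (summable_T hc F g).sum_add_tsum_compl (s := J)
  have h6 := hs.sum_add_tsum_compl (s := J)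
  have h7 : |∑' ν : ↑(↑J : Set 𝓕)ᶜ, ∫ x, g x * F ν x ∂((ν : 𝓕) : Measure X)| ≤
      ∑' ν : ↑(↑J : Set 𝓕)ᶜ, ‖F ν‖ := by
    have h10 : ∀ ν : ↑(↑J : Set 𝓕)ᶜ, ‖∫ x, g x * F ν x ∂((ν : 𝓕) : Measure X)‖ ≤
        ‖F ν‖ := fun ν =>
      (int_bound hc g (F ν)).trans (mul_le_of_le_one_right (norm_nonneg (F ν)) hg)
    exact tsum_of_norm_bounded (hs.subtype _).hasSum h10
  rw [B_apply hc, ← h5]
  rw [← norm_eq] at h6
  have h9 := abs_le.1 h7
  linarith [h9.1]

/-- Finite measures are in the range. -/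
theorem range_meas (hc : ∀ g : C(X, ℝ), Measurable (g : X → ℝ))
    {𝓕 : Set (Measure X)} (h𝓕 : MaxFamX 𝓕) (m : Measure X)
    (hm : IsFiniteMeasure m) : ∃ F : XX 𝓕, ∀ g : C(X, ℝ), B hc 𝓕 F g = ∫ x, g x ∂m := by
  obtain ⟨f, hf, hms⟩ := T8d.main 𝓕 h𝓕.1 h𝓕.2.1 h𝓕.2.2 m hm
  have hsum : ∑' ν : 𝓕, ∫⁻ x, f ν x ∂(ν : Measure X) = m univ := by
    conv_rhs => rw [hms]
    rw [Measure.sum_apply _ MeasurableSet.univ]
    congr 1
    ext ν
    rw [withDensity_apply _ MeasurableSet.univ, Measure.restrict_univ]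
  have hfin : ∑' ν : 𝓕, ∫⁻ x, f ν x ∂(ν : Measure X) ≠ ∞ := by
    rw [hsum]
    exact measure_ne_top m _
  have hfin1 : ∀ ν : 𝓕, ∫⁻ x, f ν x ∂(ν : Measure X) ≠ ∞ := fun ν =>
    ENNReal.ne_top_of_tsum_ne_top hfin ν
  have hint : ∀ ν : 𝓕, Integrable (fun x => (f ν x).toReal) (ν : Measure X) := fun ν =>
    integrable_toReal_of_lintegral_ne_top (hf ν).aemeasurable (hfin1 ν)
  have hlt : ∀ ν : 𝓕, ∀ᵐ x ∂(ν : Measure X), f ν x < ∞ := fun ν =>
    ae_lt_top (hf ν) (hfin1 ν)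
  let F0 : (ν : 𝓕) → Lp ℝ 1 (ν : Measure X) := fun ν => (hint ν).toL1 _
  have hnorm : ∀ ν : 𝓕, ‖F0 ν‖ = (∫⁻ x, f ν x ∂(ν : Measure X)).toReal := by
    intro ν
    rw [L1.norm_eq_integral_norm, ← integral_toReal (hf ν).aemeasurable (hlt ν)]
    refine integral_congr_ae ?_
    filter_upwards [(hint ν).coeFn_toL1] with x hx
    rw [hx, Real.norm_of_nonneg ENNReal.toReal_nonneg]
  have hmem : Memℓp F0 1 := by
    refine memℓp_gen ?_
    simp only [ENNReal.toReal_one, Real.rpow_one]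
    simp_rw [hnorm]
    exact ENNReal.summable_toReal hfin
  refine ⟨⟨F0, hmem⟩, fun g => ?_⟩
  rw [B_apply hc]
  have hgi : Integrable (fun x => g x) m := by
    refine Integrable.of_bound (hc g).aestronglyMeasurable ‖g‖ ?_
    exact ae_of_all _ fun x => g.norm_coe_le_norm x
  have h10 : ∫ x, g x ∂m = ∑' ν : 𝓕, ∫ x, g x ∂((ν : Measure X).withDensity (f ν)) := by
    conv_lhs => rw [hms]
    rw [integral_sum_measure]
    rw [← hms]
    exact hgi
  rw [h10]
  congr 1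
  ext ν
  rw [integral_withDensity_eq_integral_toReal_smul (hf ν) (hlt ν)]
  refine integral_congr_ae ?_
  filter_upwards [(hint ν).coeFn_toL1] with x hx
  rw [hx, smul_eq_mul, mul_comm]

end Pool.Agent.H860.LD

open Pool.Agent.H860.LD

/-- (ZDL) -/
theorem Pool.Agent.H860.LD.sZDL.{u} : S_ZDL.{u} := by
  intro X _ _ _ m0 𝒜 h1 h2 h3 h4 𝓕 h𝓕
  have h𝒜 : ZD 𝒜 := ⟨h1, h2, h3, h4⟩
  have hc := meas_cont h𝒜
  have hsurj : ∀ φ : StrongDual ℝ C(X, ℝ), ∃ F : XX 𝓕, ∀ g, B hc 𝓕 F g = φ g := by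
    intro φ
    have h := @T8aAux.riesz_two X _ _ _ (borel X) (@BorelSpace.mk X _ (borel X) rfl) φ
    obtain ⟨m₁, m₂, i1, i2, h5⟩ := h
    have hle := h𝒜.le_borel
    obtain ⟨F₁, hF₁⟩ := range_meas hc h𝓕 (m₁.trim hle) (isFiniteMeasure_trim hle)
    obtain ⟨F₂, hF₂⟩ := range_meas hc h𝓕 (m₂.trim hle) (isFiniteMeasure_trim hle)
    refine ⟨F₁ - F₂, fun g => ?_⟩
    rw [map_sub, LinearMap.sub_apply, hF₁, hF₂, h5 g,
      ← integral_trim hle (hc g).stronglyMeasurable, ← integral_trim hle (hc g).stronglyMeasurable]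
  exact W1.gen (E := C(X, ℝ)) (X := XX 𝓕) (B hc 𝓕) (B_bound hc) (lower hc (norming h𝒜) h𝓕) hsurj
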